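import Mathlib

namespace Pool.Agent.Helper30.GEO

variable {V : Type*}

/-- Geodetic graph: connected, and any two vertices are joined by exactly one shortest walk. -/
def IsGeodetic (G : SimpleGraph V) : Prop :=
  G.Connected ∧ ∀ (u v : V) (p q : G.Walk u v),
    p.length = G.dist u v → q.length = G.dist u v → p = q

/-- Working form: parents are unique with respect to every root. -/
structure Geo (G : SimpleGraph V) : Prop where
  conn : G.Connected
  uniq : ∀ r v p q, G.Adj v p → G.Adj v q → G.dist r p + 1 = G.dist r v →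
    G.dist r q + 1 = G.dist r v → p = q

theorem IsGeodetic.geo {G : SimpleGraph V} (h : IsGeodetic G) : Geo G := by
  refine ⟨h.1, ?_⟩
  intro r v p q hp hq h1 h2
  obtain ⟨wp, hwp⟩ := h.1.exists_walk_length_eq_dist r p
  obtain ⟨wq, hwq⟩ := h.1.exists_walk_length_eq_dist r q
  have e := h.2 r v (wp.concat hp.symm) (wq.concat hq.symm)
    (by rw [SimpleGraph.Walk.length_concat, hwp, h1])
    (by rw [SimpleGraph.Walk.length_concat, hwq, h2])
  have := congrArg SimpleGraph.Walk.penultimate e
  simpa using this

section basic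

variable {G : SimpleGraph V} (hg : Geo G)
include hg

theorem Geo.tri (u v w : V) : G.dist u w ≤ G.dist u v + G.dist v w := hg.conn.dist_triangle

theorem Geo.adj_le {r v w : V} (h : G.Adj v w) : G.dist r v ≤ G.dist r w + 1 := by
  have h1 := hg.tri r w v
  have h2 : G.dist w v = 1 := SimpleGraph.dist_eq_one_iff_adj.2 h.symm
  omega

theorem Geo.pos {u v : V} (h : u ≠ v) : 0 < G.dist u v := hg.conn.pos_dist_of_ne h

theorem Geo.eq_of_zero {u v : V} (h : G.dist u v = 0) : u = v :=
  hg.conn.dist_eq_zero_iff.1 h

theorem Geo.adj_iff {u v : V} : G.dist u v = 1 ↔ G.Adj u v := SimpleGraph.dist_eq_one_iff_adj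

theorem Geo.exists_par {r v : V} (h : r ≠ v) :
    ∃ p, G.Adj v p ∧ G.dist r p + 1 = G.dist r v := by
  obtain ⟨w, hw⟩ := hg.conn.exists_walk_length_eq_dist v r
  cases w with
  | nil => exact absurd rfl h
  | cons ha w' =>
    rename_i p
    refine ⟨p, ha, ?_⟩
    have h1 : G.dist p r ≤ w'.length := SimpleGraph.dist_le w'
    have h2 := hg.adj_le (r := r) ha
    rw [SimpleGraph.Walk.length_cons] at hw
    rw [SimpleGraph.dist_comm (u := r) (v := v)] at h2 ⊢
    rw [SimpleGraph.dist_comm (u := r) (v := p)] at h2 ⊢
    omega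

theorem Geo.two_le {u v : V} (h : u ≠ v) (h' : ¬ G.Adj u v) : 2 ≤ G.dist u v := by
  have h1 := hg.pos h
  have h2 : G.dist u v ≠ 1 := fun h2 => h' (SimpleGraph.dist_eq_one_iff_adj.1 h2)
  omega

/-- nonadjacent distinct vertices have at most one common neighbour -/
theorem Geo.cn {u v a b : V} (h : u ≠ v) (h' : ¬ G.Adj u v) (h1 : G.Adj u a) (h2 : G.Adj v a)
    (h3 : G.Adj u b) (h4 : G.Adj v b) : a = b := by
  have e := hg.two_le h h'
  have ea : G.dist u a = 1 := SimpleGraph.dist_eq_one_iff_adj.2 h1
  have eb : G.dist u b = 1 := SimpleGraph.dist_eq_one_iff_adj.2 h3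
  have l := hg.adj_le (r := u) h2
  exact hg.uniq u v a b h2 h4 (by omega) (by omega)

/-- adjacency is transitive inside a neighbourhood -/
theorem Geo.tr {z a b c : V} (ha : G.Adj z a) (hb : G.Adj z b) (hc : G.Adj z c)
    (h1 : G.Adj a b) (h2 : G.Adj b c) (h3 : a ≠ c) : G.Adj a c := by
  by_contra h
  have := hg.cn h3 h ha.symm hc.symm h1 h2.symm
  exact (G.irrefl (this ▸ hb))

theorem Geo.p3 {u v a b a' b' : V} (h1 : G.Adj u a) (h2 : G.Adj a b) (h3 : G.Adj b v)
    (h1' : G.Adj u a') (h2' : G.Adj a' b') (h3' : G.Adj b' v) (hne : a ≠ a' ∨ b ≠ b') :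
    G.dist u v ≤ 2 := by
  by_contra h
  push Not at h
  have ea : G.dist u a = 1 := SimpleGraph.dist_eq_one_iff_adj.2 h1
  have ea' : G.dist u a' = 1 := SimpleGraph.dist_eq_one_iff_adj.2 h1'
  have l2 := hg.adj_le (r := u) h2.symm
  have l2' := hg.adj_le (r := u) h2'.symm
  have l3 := hg.adj_le (r := u) h3.symm
  have l3' := hg.adj_le (r := u) h3'.symm
  have e := hg.uniq u v b b' h3.symm h3'.symm (by omega) (by omega)
  subst e
  have e := hg.uniq u b a a' h2.symm h2'.symm (by omega) (by omega)
  subst e
  rcases hne with h | h <;> exact h rfl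

theorem Geo.p4 {u v a b c a' b' c' : V} (h1 : G.Adj u a) (h2 : G.Adj a b) (h3 : G.Adj b c)
    (h4 : G.Adj c v) (h1' : G.Adj u a') (h2' : G.Adj a' b') (h3' : G.Adj b' c')
    (h4' : G.Adj c' v) (hne : a ≠ a') :
    G.dist u v ≤ 3 := by
  by_contra h
  push Not at h
  have ea : G.dist u a = 1 := SimpleGraph.dist_eq_one_iff_adj.2 h1
  have ea' : G.dist u a' = 1 := SimpleGraph.dist_eq_one_iff_adj.2 h1'
  have l2 := hg.adj_le (r := u) h2.symm
  have l2' := hg.adj_le (r := u) h2'.symm
  have l3 := hg.adj_le (r := u) h3.symm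
  have l3' := hg.adj_le (r := u) h3'.symm
  have l4 := hg.adj_le (r := u) h4.symm
  have l4' := hg.adj_le (r := u) h4'.symm
  have e := hg.uniq u v c c' h4.symm h4'.symm (by omega) (by omega)
  subst e
  have e := hg.uniq u c b b' h3.symm h3'.symm (by omega) (by omega)
  subst e
  exact hne (hg.uniq u b a a' h2.symm h2'.symm (by omega) (by omega))

theorem Geo.le_two {u v : V} (h : G.dist u v ≤ 2) :
    u = v ∨ G.Adj u v ∨ ∃ y, G.Adj u y ∧ G.Adj v y := by
  by_cases h1 : u = v
  · exact Or.inl h1
  by_cases h2 : G.Adj u v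
  · exact Or.inr (Or.inl h2)
  obtain ⟨p, hp, hd⟩ := hg.exists_par h1
  have e := hg.two_le h1 h2
  exact Or.inr (Or.inr ⟨p, SimpleGraph.dist_eq_one_iff_adj.1 (by omega), hp⟩)

/-! isometric cycles -/

theorem Geo.pb {c : ℕ → V} (hadj : ∀ i, G.Adj (c i) (c (i + 1))) (i j : ℕ) :
    G.dist (c i) (c (i + j)) ≤ j := by
  induction j with
  | zero => simp
  | succ j ih =>
    have := hg.adj_le (r := c i) (hadj (i + j)).symm
    rw [← add_assoc]; omega

theorem Geo.cyc {m : ℕ} (hm : 2 ≤ m) {c : ℕ → V} (hper : ∀ i, c (i + (2 * m + 1)) = c i)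
    (hadj : ∀ i, G.Adj (c i) (c (i + 1)))
    (h0 : ∀ j ≤ 2 * m + 1, G.dist (c 0) (c j) = min j (2 * m + 1 - j))
    (hne : c 1 ≠ c (2 * m)) (a : ℕ) :
    (∀ j ≤ 2 * m + 1, G.dist (c a) (c (a + j)) = min j (2 * m + 1 - j)) ∧
      c (a + 1) ≠ c (a + 2 * m) := by
  induction a with
  | zero => exact ⟨by simpa using h0, by simpa using hne⟩
  | succ a ih =>
    obtain ⟨ih, hne⟩ := ih
    have pb := hg.pb hadj
    have key : ∀ j ≤ 2 * m + 1, G.dist (c (a + 1)) (c (a + 1 + j)) = min j (2 * m + 1 - j) := by
      -- j ≤ m - 1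
      have s1 : ∀ j, j + 1 ≤ m → G.dist (c (a + 1)) (c (a + 1 + j)) = j := by
        intro j hj
        have u := pb (a + 1) j
        have l := ih (j + 1) (by omega)
        have e : a + (j + 1) = a + 1 + j := by ring
        rw [e] at l
        have t := hg.tri (c a) (c (a + 1)) (c (a + 1 + j))
        have e1 : G.dist (c a) (c (a + 1)) = 1 := SimpleGraph.dist_eq_one_iff_adj.2 (hadj a)
        omega
      -- j = m
      have s2 : G.dist (c (a + 1)) (c (a + 1 + m)) = m := by
        have u := pb (a + 1) m
        have l := ih (m + 1) (by omega)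
        have e : a + (m + 1) = a + 1 + m := by ring
        rw [e] at l
        have e1 : G.dist (c a) (c (a + 1)) = 1 := SimpleGraph.dist_eq_one_iff_adj.2 (hadj a)
        have t := hg.tri (c a) (c (a + 1)) (c (a + 1 + m))
        by_contra hcon
        -- root c (a+1+m), vertex c a
        have ha : G.Adj (c a) (c (a + 2 * m)) := by
          have := hadj (a + 2 * m)
          have e : a + 2 * m + 1 = a + (2 * m + 1) := by ring
          rw [e, hper a] at this
          exact this.symm
        have u2 := pb (a + 1 + m) (m - 1)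
        have e2 : a + 1 + m + (m - 1) = a + 2 * m := by omega
        rw [e2] at u2
        have l2 := hg.adj_le (r := c (a + 1 + m)) ha
        have c1 := SimpleGraph.dist_comm (G := G) (u := c a) (v := c (a + 1 + m))
        have c2 := SimpleGraph.dist_comm (G := G) (u := c (a + 1)) (v := c (a + 1 + m))
        exact hne (hg.uniq (c (a + 1 + m)) (c a) (c (a + 1)) (c (a + 2 * m)) (hadj a) ha
          (by omega) (by omega))
      -- j = m + 1
      have s3 : G.dist (c (a + 1)) (c (a + 1 + (m + 1))) = m := by
        have l := ih (m + 2) (by omega)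
        have e : a + (m + 2) = a + 1 + (m + 1) := by ring
        rw [e] at l
        have l' := ih m (by omega)
        have e1 : G.dist (c a) (c (a + 1)) = 1 := SimpleGraph.dist_eq_one_iff_adj.2 (hadj a)
        have c1 := SimpleGraph.dist_comm (G := G) (u := c a) (v := c (a + 1))
        have t := hg.tri (c (a + 1)) (c a) (c (a + 1 + (m + 1)))
        have ha := hadj (a + 1 + m)
        have l2 := hg.adj_le (r := c (a + 1)) ha
        have e3 : a + 1 + m + 1 = a + 1 + (m + 1) := by ring
        rw [e3] at l2 ha
        by_contra hcon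
        have q := s1 (m - 1) (by omega)
        have e4 : a + 1 + (m - 1) = a + m := by omega
        rw [e4] at q
        have hb := hadj (a + m)
        have e5 : a + m + 1 = a + 1 + m := by ring
        rw [e5] at hb
        have := hg.uniq (c (a + 1)) (c (a + 1 + m)) (c (a + m)) (c (a + 1 + (m + 1))) hb.symm ha
          (by omega) (by omega)
        rw [this] at l'
        omega
      intro j hj
      rcases lt_trichotomy j m with h | h | h
      · rw [s1 j (by omega)]; omega
      · subst h; rw [s2]; omega
      · by_cases hj' : j = 2 * m + 1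
        · subst hj'
          rw [hper (a + 1)]; simp
        have u := ih (j + 1) (by omega)
        have e : a + (j + 1) = a + 1 + j := by ring
        rw [e] at u
        have e1 : G.dist (c a) (c (a + 1)) = 1 := SimpleGraph.dist_eq_one_iff_adj.2 (hadj a)
        have c1 := SimpleGraph.dist_comm (G := G) (u := c a) (v := c (a + 1))
        have t := hg.tri (c (a + 1)) (c a) (c (a + 1 + j))
        have p := pb (a + 1 + (m + 1)) (j - (m + 1))
        have e6 : a + 1 + (m + 1) + (j - (m + 1)) = a + 1 + j := by omega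
        rw [e6] at p
        have c2 := SimpleGraph.dist_comm (G := G) (u := c (a + 1 + (m + 1))) (v := c (a + 1 + j))
        have t2 := hg.tri (c (a + 1)) (c (a + 1 + j)) (c (a + 1 + (m + 1)))
        omega
    refine ⟨key, ?_⟩
    have e : a + 1 + 2 * m = a + (2 * m + 1) := by ring
    rw [e, hper a]
    intro hc
    have l := ih 2 (by omega)
    have e2 : a + 1 + 1 = a + 2 := by ring
    rw [e2] at hc
    rw [hc] at l
    simp at l
    omega

end basic

/-- no isometric cycle of length at least seven -/
def NoLong (G : SimpleGraph V) : Prop :=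
  ∀ n : ℕ, 7 ≤ n → ¬ ∃ f : ZMod n → V, ∀ i j, G.dist (f i) (f j) = min (i - j).val (j - i).val

theorem iso_of_seq {G : SimpleGraph V} {n : ℕ} (hn : 0 < n) {c : ℕ → V}
    (h : ∀ a, ∀ j ≤ n, G.dist (c a) (c (a + j)) = min j (n - j)) :
    ∃ f : ZMod n → V, ∀ i j, G.dist (f i) (f j) = min (i - j).val (j - i).val := by
  haveI : NeZero n := ⟨hn.ne'⟩
  refine ⟨fun i => c i.val, ?_⟩
  have key : ∀ i j : ZMod n, i.val ≤ j.val →
      G.dist (c i.val) (c j.val) = min (i - j).val (j - i).val := by
    intro i j hij
    have h1 := h i.val (j.val - i.val) (by have := j.val_lt; omega)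
    rw [Nat.add_sub_cancel' hij] at h1
    rw [h1]
    have h2 : (j - i).val = j.val - i.val := ZMod.val_sub hij
    have h3 : (i - j).val = (-(j - i)).val := by rw [neg_sub]
    rw [h3, ZMod.neg_val, h2]
    by_cases hz : j - i = 0
    · have : (j - i).val = 0 := by rw [hz]; simp
      rw [if_pos hz]
      omega
    · rw [if_neg hz]
      rw [min_comm]
  intro i j
  rcases le_total i.val j.val with h1 | h1
  · exact key i j h1
  · have := key j i h1
    rw [SimpleGraph.dist_comm, min_comm]
    exact this

section g5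

variable {G : SimpleGraph V} (hg : Geo G) (hno : NoLong G)

open Classical in
/-- parent function -/
noncomputable def par (G : SimpleGraph V) (r v : V) : V :=
  if h : ∃ p, G.Adj v p ∧ G.dist r p + 1 = G.dist r v then h.choose else v

include hg

theorem Geo.par_spec {r v : V} (h : r ≠ v) :
    G.Adj v (par G r v) ∧ G.dist r (par G r v) + 1 = G.dist r v := by
  have hh := hg.exists_par h
  unfold par
  rw [dif_pos hh]
  exact hh.choose_spec

theorem Geo.par_eq {r v p : V} (h : G.Adj v p) (h' : G.dist r p + 1 = G.dist r v) :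
    par G r v = p := by
  have hne : r ≠ v := by
    rintro rfl
    simp at h'
  obtain ⟨a, b⟩ := hg.par_spec hne
  exact hg.uniq r v _ _ a h b h'

include hno

theorem Geo.g5 {r y y' : V} (hy : G.Adj y y') (hd : G.dist r y = G.dist r y')
    (h2 : 2 ≤ G.dist r y) : par G r (par G r y) = par G r (par G r y') := by
  by_contra hne
  obtain ⟨m, hm⟩ : ∃ m, m = G.dist r y := ⟨_, rfl⟩
  have hA : ∀ w : V, G.dist r w = m → ∀ j, j ≤ m → G.dist r ((par G r)^[j] w) = m - j := by
    intro w hw j
    induction j with
    | zero => intro _; simpa using hw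
    | succ j ih =>
      intro hj
      have ih := ih (by omega)
      rw [Function.iterate_succ_apply']
      have hn : r ≠ (par G r)^[j] w := by
        intro h; rw [← h] at ih; simp at ih; omega
      have := (hg.par_spec hn).2
      omega
  have hAdj : ∀ w : V, G.dist r w = m → ∀ j, j < m →
      G.Adj ((par G r)^[j] w) ((par G r)^[j + 1] w) := by
    intro w hw j hj
    rw [Function.iterate_succ_apply']
    refine (hg.par_spec ?_).1
    intro h
    have := hA w hw j hj.le
    rw [← h] at this; simp at this; omega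
  have hex : ∃ j, (par G r)^[j] y = (par G r)^[j] y' := by
    refine ⟨m, ?_⟩
    have e1 := hA y hm.symm m le_rfl
    have e2 := hA y' (hd ▸ hm.symm) m le_rfl
    rw [Nat.sub_self] at e1 e2
    rw [← hg.eq_of_zero e1, ← hg.eq_of_zero e2]
  classical
  obtain ⟨j, hj, hmin⟩ : ∃ j, ((par G r)^[j] y = (par G r)^[j] y') ∧
      ∀ i < j, ¬ ((par G r)^[i] y = (par G r)^[i] y') :=
    ⟨Nat.find hex, Nat.find_spec hex, fun i hi => Nat.find_min hex hi⟩
  have hjm : j ≤ m := by
    by_contra h
    push Not at h
    apply hmin m h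
    have e1 := hA y hm.symm m le_rfl
    have e2 := hA y' (hd ▸ hm.symm) m le_rfl
    rw [Nat.sub_self] at e1 e2
    rw [← hg.eq_of_zero e1, ← hg.eq_of_zero e2]
  have hj3 : 3 ≤ j := by
    by_contra h
    push Not at h
    interval_cases j
    · exact hy.ne hj
    · exact hne (by simpa using congrArg (par G r) hj)
    · exact hne (by simpa using hj)
  have hm' : G.dist r y' = m := by omega
  set A : ℕ → V := fun i => (par G r)^[i] y with hAdef
  set B : ℕ → V := fun i => (par G r)^[i] y' with hBdef
  have hAB : A j = B j := hj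
  let c : ℕ → V := fun i => if i % (2 * j + 1) ≤ j then A (j - i % (2 * j + 1))
    else B (i % (2 * j + 1) - j - 1)
  have hper : ∀ i, c (i + (2 * j + 1)) = c i := by
    intro i
    simp only [c, Nat.add_mod_right]
  have hadj : ∀ i, G.Adj (c i) (c (i + 1)) := by
    intro i
    have hlt : i % (2 * j + 1) < 2 * j + 1 := Nat.mod_lt _ (by omega)
    by_cases hlast : i % (2 * j + 1) = 2 * j
    · have e : (i + 1) % (2 * j + 1) = 0 := by
        rw [Nat.add_mod, hlast]
        have : 1 % (2 * j + 1) = 1 := Nat.mod_eq_of_lt (by omega)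
        rw [this]; simp
      simp only [c, e, hlast]
      rw [if_neg (by omega), if_pos (by omega)]
      rw [Nat.sub_zero, hAB]
      have := hAdj y' hm' (j - 1) (by omega)
      have e3 : 2 * j - j - 1 = j - 1 := by omega
      rw [e3]
      have e4 : j - 1 + 1 = j := by omega
      rw [e4] at this
      exact this
    · have e : (i + 1) % (2 * j + 1) = i % (2 * j + 1) + 1 := by
        rw [Nat.add_mod]
        have : 1 % (2 * j + 1) = 1 := Nat.mod_eq_of_lt (by omega)
        rw [this]
        exact Nat.mod_eq_of_lt (by omega)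
      simp only [c, e]
      rcases lt_trichotomy (i % (2 * j + 1)) j with h | h | h
      · rw [if_pos h.le, if_pos (by omega)]
        have := hAdj y hm.symm (j - (i % (2 * j + 1) + 1)) (by omega)
        have e4 : j - (i % (2 * j + 1) + 1) + 1 = j - i % (2 * j + 1) := by omega
        rw [e4] at this
        exact this.symm
      · rw [if_pos h.le, if_neg (by omega), h]
        have e1 : j - j = 0 := by omega
        have e2 : j + 1 - j - 1 = 0 := by omega
        rw [e1, e2]
        exact hy
      · rw [if_neg (by omega), if_neg (by omega)]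
        have := hAdj y' hm' (i % (2 * j + 1) - j - 1) (by omega)
        have e4 : i % (2 * j + 1) + 1 - j - 1 = i % (2 * j + 1) - j - 1 + 1 := by omega
        rw [e4]
        exact this
  have hpath : ∀ w : V, G.dist r w = m → ∀ a b, a + b ≤ m →
      G.dist ((par G r)^[a + b] w) ((par G r)^[a] w) = b := by
    intro w hw a b hab
    have up : ∀ b, a + b ≤ m → G.dist ((par G r)^[a + b] w) ((par G r)^[a] w) ≤ b := by
      intro b
      induction b with
      | zero => intro _; simp
      | succ b ih =>
        intro h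
        have ih := ih (by omega)
        have q := hAdj w hw (a + b) (by omega)
        have q' := hg.adj_le (r := (par G r)^[a] w) q.symm
        rw [SimpleGraph.dist_comm, SimpleGraph.dist_comm (v := (par G r)^[a + b] w)] at q'
        rw [← add_assoc]
        omega
    have u := up b hab
    have d1 := hA w hw (a + b) hab
    have d2 := hA w hw a (by omega)
    have t := hg.tri r ((par G r)^[a + b] w) ((par G r)^[a] w)
    omega
  have h0 : ∀ i ≤ 2 * j + 1, G.dist (c 0) (c i) = min i (2 * j + 1 - i) := by
    intro i hi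
    have ec0 : c 0 = A j := by
      simp [c]
    by_cases hl : i = 2 * j + 1
    · subst hl
      have : c (2 * j + 1) = c 0 := by
        have := hper 0
        rwa [zero_add] at this
      rw [this]; simp
    have e : i % (2 * j + 1) = i := Nat.mod_eq_of_lt (by omega)
    rw [ec0]
    simp only [c, e]
    by_cases h : i ≤ j
    · rw [if_pos h]
      have := hpath y hm.symm (j - i) i (by omega)
      have e2 : j - i + i = j := by omega
      rw [e2] at this
      simp only [hAdef]
      rw [this]; omega
    · rw [if_neg h, hAB]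
      have := hpath y' hm' (i - j - 1) (2 * j + 1 - i) (by omega)
      have e2 : i - j - 1 + (2 * j + 1 - i) = j := by omega
      rw [e2] at this
      simp only [hBdef]
      rw [this]; omega
  have hne' : c 1 ≠ c (2 * j) := by
    have e1 : 1 % (2 * j + 1) = 1 := Nat.mod_eq_of_lt (by omega)
    have e2 : 2 * j % (2 * j + 1) = 2 * j := Nat.mod_eq_of_lt (by omega)
    simp only [c, e1, e2]
    rw [if_pos (by omega), if_neg (by omega)]
    have e3 : 2 * j - j - 1 = j - 1 := by omega
    rw [e3]
    exact hmin (j - 1) (by omega)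
  have hc := hg.cyc (m := j) (by omega) hper hadj h0 hne'
  exact hno (2 * j + 1) (by omega) (iso_of_seq (by omega) (fun a => (hc a).1))

end g5

end Pool.Agent.Helper30.GEO
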