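import Pool.Agent.Helper30.GEO.Main

namespace Pool.Agent.Helper30.GEO

open Finset Classical

variable {V : Type*} [Fintype V] {G : SimpleGraph V} {k D : ℕ} {x z : V}

/-- every member of `S = Sh i0 t0` has last level children, all with the same set -/
theorem Ctx.Sfull (c : Ctx G k D x z) {i0 t0 : V} (hi0 : CC G D x z i0) (ht0 : FF G D x i0 t0)
    {i : V} (hi : i ∈ Sh G D x z i0 t0) :
    CC G D x z i ∧ (∃ t, FF G D x i t) ∧
      ∀ t, FF G D x i t → Sh G D x z i t = Sh G D x z i0 t0 := by
  have hCi : CC G D x z i := by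
    unfold Sh at hi
    simp only [mem_filter, mem_univ, true_and] at hi
    exact hi.1
  have key : ∃ t, FF G D x i t ∧ Sh G D x z i t = Sh G D x z i0 t0 := by
    unfold Sh at hi
    simp only [mem_filter, mem_univ, true_and] at hi
    rcases hi.2 with h | h | ⟨w, h1, h2⟩
    · subst h; exact ⟨t0, ht0, rfl⟩
    · obtain ⟨j, t', hj, hij, hnij, ha, hf⟩ := c.F2 hi0 ht0
      obtain ⟨_, w, hw1, hw2⟩ := c.S1 hj hi0 hCi hf hij.symm ⟨t0, ha.symm, ht0⟩ h.symm
      exact ⟨w, hw2, (c.S3 hCi hj hw2 hf hw1.symm).trans (c.S3 hj hi0 hf ht0 ha.symm)⟩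
    · exact ⟨w, h2, c.S3 hCi hi0 h2 ht0 h1.symm⟩
  obtain ⟨t, ht, he⟩ := key
  exact ⟨hCi, ⟨t, ht⟩, fun u hu => (c.KK hCi hu ht).trans he⟩

theorem Ctx.mem_S_sees (_c : Ctx G k D x z) {j t : V} {S : Finset V}
    (hS : Sh G D x z j t = S) {i : V} (hi : i ∈ S) (hji : j ≠ i) (hnji : ¬ G.Adj j i) :
    ∃ w, G.Adj t w ∧ FF G D x i w := by
  rw [← hS] at hi
  unfold Sh at hi
  simp only [mem_filter, mem_univ, true_and] at hi
  rcases hi.2 with h | h | h
  · exact absurd h hji
  · exact absurd h hnji
  · exact h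

theorem Ctx.fle (c : Ctx G k D x z) {i0 t0 : V} (hi0 : CC G D x z i0) (ht0 : FF G D x i0 t0)
    {i j : V} (hi : i ∈ Sh G D x z i0 t0) (hj : j ∈ Sh G D x z i0 t0) (hij : i ≠ j)
    (hnij : ¬ G.Adj i j) : (FS G D x i).card ≤ (FS G D x j).card := by
  obtain ⟨hCi, _, hai⟩ := c.Sfull hi0 ht0 hi
  obtain ⟨hCj, _, haj⟩ := c.Sfull hi0 ht0 hj
  have hex : ∀ t, FF G D x i t → ∃ w, G.Adj t w ∧ FF G D x j w := fun t ht =>
    c.mem_S_sees (hai t ht) hj hij hnij
  apply Finset.card_le_card_of_injOn
    (fun t => if h : FF G D x i t then (hex t h).choose else t)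
  · intro t ht
    have ht' : FF G D x i t := by
      have := Finset.mem_coe.1 ht
      unfold FS at this
      simpa only [mem_filter, mem_univ, true_and] using this
    simp only [dif_pos ht']
    apply Finset.mem_coe.2
    unfold FS
    simp only [mem_filter, mem_univ, true_and]
    exact (hex t ht').choose_spec.2
  · intro t ht u hu e
    have ht' : FF G D x i t := by
      have := Finset.mem_coe.1 ht
      unfold FS at this
      simpa only [mem_filter, mem_univ, true_and] using this
    have hu' : FF G D x i u := by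
      have := Finset.mem_coe.1 hu
      unfold FS at this
      simpa only [mem_filter, mem_univ, true_and] using this
    simp only [dif_pos ht', dif_pos hu'] at e
    have h1 := (hex t ht').choose_spec
    have h2 := (hex u hu').choose_spec
    rw [← e] at h2
    exact c.U hCj hCi h1.2 hij.symm h1.1.symm ht' h2.1.symm hu'

/-- all classes in `S` have the same size -/
theorem Ctx.clc (c : Ctx G k D x z) {i0 t0 : V} (hi0 : CC G D x z i0) (ht0 : FF G D x i0 t0)
    {i : V} (hi : i ∈ Sh G D x z i0 t0) :
    (cl G D x z i).card = (cl G D x z i0).card := by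
  have hi00 : i0 ∈ Sh G D x z i0 t0 := by
    unfold Sh
    simp only [mem_filter, mem_univ, true_and]
    exact ⟨hi0, Or.inl trivial⟩
  have key : ∀ a b, a ∈ Sh G D x z i0 t0 → b ∈ Sh G D x z i0 t0 → a ≠ b → ¬ G.Adj a b →
      (cl G D x z a).card = (cl G D x z b).card := by
    intro a b ha hb hab hnab
    have e := le_antisymm (c.fle hi0 ht0 ha hb hab hnab)
      (c.fle hi0 ht0 hb ha hab.symm (fun h => hnab h.symm))
    obtain ⟨hCa, ⟨ta, hta⟩, _⟩ := c.Sfull hi0 ht0 ha
    obtain ⟨hCb, ⟨tb, htb⟩, _⟩ := c.Sfull hi0 ht0 hb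
    have h1 := c.card_FS hCa hta
    have h2 := c.card_FS hCb htb
    omega
  by_cases h1 : i = i0
  · rw [h1]
  by_cases h2 : G.Adj i i0
  · obtain ⟨j, t', hj, hij, hnij, ha, hf⟩ := c.F2 hi0 ht0
    have hjS : j ∈ Sh G D x z i0 t0 := by
      unfold Sh
      simp only [mem_filter, mem_univ, true_and]
      exact ⟨hj, Or.inr (Or.inr ⟨t', ha, hf⟩)⟩
    have hCi := (c.Sfull hi0 ht0 hi).1
    have hne : i ≠ j := by
      rintro rfl
      exact hnij h2.symm
    have hna : ¬ G.Adj i j := by
      intro h3
      exact hnij (c.hg.tr hi0.1.symm hCi.1.symm hj.1.symm h2.symm h3 hij)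
    rw [key i j hi hjS hne hna, key i0 j hi00 hjS hij hnij]
  · exact key i i0 hi hi00 h1 h2

theorem Ctx.VVsize (c : Ctx G k D x z) {i0 t0 : V} (hi0 : CC G D x z i0)
    (ht0 : FF G D x i0 t0) {i t : V} (hi : i ∈ Sh G D x z i0 t0) (ht : FF G D x i t) :
    (VV G D x i t).card + (Sh G D x z i0 t0).card = k + (cl G D x z i0).card := by
  obtain ⟨hCi, _, ha⟩ := c.Sfull hi0 ht0 hi
  have h1 := c.C1 hCi ht
  have h2 := c.card_Sh hCi ht
  rw [ha t ht, c.clc hi0 ht0 hi] at h2
  omega

theorem Ctx.Ssize (c : Ctx G k D x z) {i0 t0 : V} :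
    (Sh G D x z i0 t0).card + 1 ≤ k := by
  refine le_trans (Nat.add_le_add_right (Finset.card_le_card ?_) 1) c.card_CC
  intro j hj
  unfold Sh at hj
  simp only [mem_filter, mem_univ, true_and] at hj ⊢
  exact hj.1

/-- equivalence relation used for classes -/
def RR (G : SimpleGraph V) (v w : V) : Prop := v = w ∨ G.Adj v w

theorem Ctx.dvd_of_closed (c : Ctx G k D x z) {i : V} {a : ℕ} (s : Finset V)
    (hs : ∀ w ∈ s, FF G D x i w) (hcl : ∀ w ∈ s, ∀ w', FF G D x i w' → G.Adj w w' → w' ∈ s)
    (ha : ∀ w ∈ s, (VV G D x i w).card = a) : a ∣ s.card := by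
  apply dvd_class a (RR G) s
  · intro v _; exact Or.inl rfl
  · intro u _ v _ h
    rcases h with h | h
    · exact Or.inl h.symm
    · exact Or.inr h.symm
  · intro u hu v hv w hw h1 h2
    rcases h1 with rfl | h1
    · exact h2
    rcases h2 with rfl | h2
    · exact Or.inr h1
    by_cases e : u = w
    · exact Or.inl e
    · exact Or.inr (c.hg.tr (hs u hu).1.symm (hs v hv).1.symm (hs w hw).1.symm h1 h2 e)
  · intro v hv
    rw [← ha v hv]
    congr 1
    ext w
    unfold VV RR
    simp only [mem_filter, mem_univ, true_and]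
    constructor
    · rintro ⟨h1, h2⟩; exact ⟨hs w h1, h2⟩
    · rintro ⟨h1, h2⟩
      refine ⟨?_, h2⟩
      rcases h2 with rfl | h2
      · exact hv
      · exact hcl v hv w h1 h2

/-- the case of adjacent members of `S` is impossible -/
theorem Ctx.case5 (c : Ctx G k D x z) {i0 t0 : V} (hi0 : CC G D x z i0)
    (ht0 : FF G D x i0 t0) {i j : V} (hi : i ∈ Sh G D x z i0 t0) (hj : j ∈ Sh G D x z i0 t0)
    (hij : G.Adj i j) : False := by
  obtain ⟨hCi, ⟨ti, hti⟩, hai⟩ := c.Sfull hi0 ht0 hi
  obtain ⟨hCj, ⟨t, ht⟩, haj⟩ := c.Sfull hi0 ht0 hj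
  obtain ⟨a, ha⟩ : ∃ a, a = (VV G D x i ti).card := ⟨_, rfl⟩
  have hVV : ∀ w, FF G D x i w → (VV G D x i w).card = a := by
    intro w hw
    have h1 := c.VVsize hi0 ht0 hi hw
    have h2 := c.VVsize hi0 ht0 hi hti
    omega
  -- a divides |F_i|
  have d1 : a ∣ (FS G D x i).card := by
    apply c.dvd_of_closed (i := i)
    · intro w hw
      unfold FS at hw
      simpa only [mem_filter, mem_univ, true_and] using hw
    · intro w _ w' h' _
      unfold FS
      simpa only [mem_filter, mem_univ, true_and] using h'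
    · intro w hw
      unfold FS at hw
      simp only [mem_filter, mem_univ, true_and] at hw
      exact hVV w hw
  -- the set at distance two from t
  let Gt : Finset V := univ.filter (fun w => FF G D x i w ∧ ∃ y, G.Adj t y ∧ G.Adj y w)
  have hGt : ∀ w, w ∈ Gt ↔ FF G D x i w ∧ ∃ y, G.Adj t y ∧ G.Adj y w := by
    intro w
    simp only [Gt, mem_filter, mem_univ, true_and]
  have hnS : ¬ Sees G D x t i := c.S0 hCj hCi ht hij.symm
  have htw : ∀ w, FF G D x i w → t ≠ w ∧ ¬ G.Adj t w := by
    intro w hw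
    refine ⟨?_, fun h => hnS ⟨w, h, hw⟩⟩
    rintro rfl
    exact c.nadj hCi hCj hw hij.ne ht.1
  -- structure of the common neighbour
  have hstr : ∀ w y, FF G D x i w → G.Adj t y → G.Adj y w →
      ∃ l, CC G D x z l ∧ FF G D x l y ∧ j ≠ l ∧ ¬ G.Adj j l := by
    intro w y hw h1 h2
    rcases c.nb hCj ht h1 with e | e
    · exfalso
      rw [e] at h2
      exact c.nadj hCi hCj hw hij.ne h2.symm
    obtain ⟨l, hl, hfl⟩ := c.cous hCj ht h1 e
    have hjl : j ≠ l := by
      rintro rfl
      exact c.S0 hCj hCi hfl hij.symm ⟨w, h2, hw⟩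
    refine ⟨l, hl, hfl, hjl, fun ha => c.S0 hCj hl ht ha ⟨y, h1, hfl⟩⟩
  have d2 : a ∣ Gt.card := by
    apply c.dvd_of_closed (i := i)
    · intro w hw
      exact ((hGt w).1 hw).1
    · intro w hw w' h' haw
      obtain ⟨hfw, y, hy1, hy2⟩ := (hGt w).1 hw
      rw [hGt]
      refine ⟨h', ?_⟩
      obtain ⟨l, hl, hfl, hjl, _⟩ := hstr w y hfw hy1 hy2
      have hd := c.hg.p3 hy1 hy2 haw ht.1 hij.symm h'.1.symm (Or.inl (c.ne_FC hCj hfl))
      obtain ⟨q1, q2⟩ := htw w' h'
      rcases c.hg.le_two hd with e | e | ⟨y', h1, h2⟩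
      · exact absurd e q1
      · exact absurd e q2
      · exact ⟨y', h1, h2.symm⟩
    · intro w hw
      exact hVV w ((hGt w).1 hw).1
  -- cardinality of Gt
  have e1 : Gt.card = (Seen G D x z j t).card := by
    apply Finset.card_bij (fun w hw => par G x (((hGt w).1 hw).2).choose)
    · intro w hw
      have hs := (((hGt w).1 hw).2).choose_spec
      obtain ⟨l, hl, hfl, hjl, hnjl⟩ := hstr w _ ((hGt w).1 hw).1 hs.1 hs.2
      rw [c.par_F hl hfl]
      unfold Seen
      simp only [mem_filter, mem_univ, true_and]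
      exact ⟨hl, hjl, hnjl, ⟨_, hs.1, hfl⟩⟩
    · intro w hw w' hw' e
      have hs := (((hGt w).1 hw).2).choose_spec
      have hs' := (((hGt w').1 hw').2).choose_spec
      obtain ⟨l, hl, hfl, hjl, hnjl⟩ := hstr w _ ((hGt w).1 hw).1 hs.1 hs.2
      obtain ⟨l', hl', hfl', hjl', hnjl'⟩ := hstr w' _ ((hGt w').1 hw').1 hs'.1 hs'.2
      rw [c.par_F hl hfl, c.par_F hl' hfl'] at e
      rw [← e] at hfl'
      have ey := c.U hCj hl ht hjl hs.1 hfl hs'.1 hfl'
      have hli : l ≠ i := by
        rintro rfl
        exact hnjl hij.symm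
      have h3 := hs'.2
      rw [← ey] at h3
      exact c.U hl hCi hfl hli hs.2 ((hGt w).1 hw).1 h3 ((hGt w').1 hw').1
    · intro l hl
      unfold Seen at hl
      simp only [mem_filter, mem_univ, true_and] at hl
      obtain ⟨hCl, hjl, hnjl, y, hy1, hfl⟩ := hl
      have hlS : l ∈ Sh G D x z i0 t0 := by
        rw [← haj t ht]
        unfold Sh
        simp only [mem_filter, mem_univ, true_and]
        exact ⟨hCl, Or.inr (Or.inr ⟨y, hy1, hfl⟩)⟩
      have hli : l ≠ i := by
        rintro rfl
        exact hnjl hij.symm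
      have hnli : ¬ G.Adj l i := by
        intro h
        exact hnjl (c.hg.tr hCj.1.symm hCi.1.symm hCl.1.symm hij.symm h.symm hjl)
      obtain ⟨_, _, hal⟩ := c.Sfull hi0 ht0 hlS
      obtain ⟨w, hw1, hw2⟩ := c.mem_S_sees (hal y hfl) hi hli hnli
      have hwG : w ∈ Gt := (hGt w).2 ⟨hw2, y, hy1, hw1⟩
      refine ⟨w, hwG, ?_⟩
      have hs := (((hGt w).1 hwG).2).choose_spec
      obtain ⟨q1, q2⟩ := htw w hw2
      have ey := c.hg.cn q1 q2 hs.1 hs.2.symm hy1 hw1.symm
      rw [ey]
      exact c.par_F hCl hfl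
  have h1 := c.VVsize hi0 ht0 hi hti
  have h2 := c.card_Sh hCj ht
  rw [haj t ht, c.clc hi0 ht0 hj] at h2
  have h3 := c.card_FS hCi hti
  rw [c.clc hi0 ht0 hi] at h3
  have h4 := c.Ssize (i0 := i0) (t0 := t0)
  have h5 : 0 < (cl G D x z i0).card := by
    apply Finset.card_pos.2
    refine ⟨i0, ?_⟩
    unfold cl
    simp only [mem_filter, mem_univ, true_and]
    exact ⟨hi0, Or.inl trivial⟩
  rw [e1] at d2
  -- Seen = q - c = k - a
  have h6 : (Seen G D x z j t).card + a = k := by omega
  have d3 : a ∣ k := by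
    rw [← h6]
    exact Dvd.dvd.add d2 (dvd_refl a)
  have d4 : a ∣ (cl G D x z i0).card := by
    rw [← h3] at d3
    exact (Nat.dvd_add_right d1).1 d3
  have h7 := Nat.le_of_dvd h5 d4
  omega

/-- the case without adjacent members of `S` is impossible -/
theorem Ctx.case6 (c : Ctx G k D x z) {i0 t0 : V} (hi0 : CC G D x z i0)
    (ht0 : FF G D x i0 t0)
    (hno : ∀ i ∈ Sh G D x z i0 t0, ∀ j ∈ Sh G D x z i0 t0, ¬ G.Adj i j) : False := by
  have hi00 : i0 ∈ Sh G D x z i0 t0 := by
    unfold Sh
    simp only [mem_filter, mem_univ, true_and]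
    exact ⟨hi0, Or.inl trivial⟩
  have hc1 : (cl G D x z i0).card = 1 := by
    rw [Finset.card_eq_one]
    refine ⟨i0, ?_⟩
    ext j
    unfold cl
    simp only [mem_filter, mem_univ, true_and, mem_singleton]
    constructor
    · rintro ⟨h1, h2 | h2⟩
      · exact h2.symm
      · exfalso
        refine hno i0 hi00 j ?_ h2
        unfold Sh
        simp only [mem_filter, mem_univ, true_and]
        exact ⟨h1, Or.inr (Or.inl h2)⟩
    · rintro rfl
      exact ⟨hi0, Or.inl rfl⟩
  obtain ⟨a, ha⟩ : ∃ a, a = (VV G D x i0 t0).card := ⟨_, rfl⟩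
  have hVV : ∀ i w, i ∈ Sh G D x z i0 t0 → FF G D x i w → (VV G D x i w).card = a := by
    intro i w hi hw
    have h1 := c.VVsize hi0 ht0 hi hw
    have h2 := c.VVsize hi0 ht0 hi00 ht0
    omega
  have d1 : a ∣ (FS G D x i0).card := by
    apply c.dvd_of_closed (i := i0)
    · intro w hw
      unfold FS at hw
      simpa only [mem_filter, mem_univ, true_and] using hw
    · intro w _ w' h' _
      unfold FS
      simpa only [mem_filter, mem_univ, true_and] using h'
    · intro w hw
      unfold FS at hw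
      simp only [mem_filter, mem_univ, true_and] at hw
      exact hVV i0 w hi00 hw
  -- notation: j = i0, t = t0
  have hN3 : ∀ m ∈ N3 G D x i0 t0, ∃ i, i ∈ Sh G D x z i0 t0 ∧ CC G D x z i ∧ FF G D x i m ∧
      i0 ≠ i ∧ ¬ G.Adj i0 i ∧ G.Adj t0 m := by
    intro m hm
    unfold N3 at hm
    simp only [mem_filter, mem_univ, true_and] at hm
    obtain ⟨i, hi, hf⟩ := c.cous hi0 ht0 hm.1 hm.2.1
    have hne : i0 ≠ i := by
      rintro rfl
      exact hm.2.2 hf.1
    refine ⟨i, ?_, hi, hf, hne, fun h => c.S0 hi0 hi ht0 h ⟨m, hm.1, hf⟩, hm.1⟩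
    unfold Sh
    simp only [mem_filter, mem_univ, true_and]
    exact ⟨hi, Or.inr (Or.inr ⟨m, hm.1, hf⟩)⟩
  have key : ∀ m ∈ N3 G D x i0 t0, ((N3 G D x i0 t0).filter (fun w => RR G m w)).card = a := by
    intro m hm
    obtain ⟨i, hiS, hCi, hfm, hne, hna, htm⟩ := hN3 m hm
    obtain ⟨_, _, hai⟩ := c.Sfull hi0 ht0 hiS
    have hmi := hfm.1
    have hti : ¬ G.Adj t0 i := c.nadj hi0 hCi ht0 hne
    have hti' : t0 ≠ i := c.ne_FC hCi ht0
    have hmi0 : ¬ G.Adj m i0 := c.nadj hCi hi0 hfm hne.symm
    -- A1, A2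
    let A1 : Finset V := univ.filter (fun v => G.Adj i v ∧ ¬ (m = v ∨ G.Adj m v))
    let A2 : Finset V := univ.filter (fun w => G.Adj t0 w ∧ ¬ (m = w ∨ G.Adj m w))
    have hA1 : ∀ v, v ∈ A1 ↔ G.Adj i v ∧ ¬ (m = v ∨ G.Adj m v) := by
      intro v; simp only [A1, mem_filter, mem_univ, true_and]
    have hA2 : ∀ v, v ∈ A2 ↔ G.Adj t0 v ∧ ¬ (m = v ∨ G.Adj m v) := by
      intro v; simp only [A2, mem_filter, mem_univ, true_and]
    -- neighbours of i: z or in F_i
    have hNi : ∀ v, G.Adj i v → v = z ∨ FF G D x i v := by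
      intro v hv
      have l1 := c.hg.adj_le (r := x) hv
      have l2 := c.hg.adj_le (r := x) hv.symm
      have hi2 := hCi.2
      have hz := c.hz
      by_cases h1 : G.dist x v = D
      · exact Or.inr ⟨hv.symm, h1⟩
      by_cases h2 : G.dist x v + 1 = D
      · exfalso
        have hvz := c.exits hCi hfm hv h2
        refine hno i hiS v ?_ hv
        have : v ∈ Sh G D x z i m := by
          unfold Sh
          simp only [mem_filter, mem_univ, true_and]
          exact ⟨⟨hvz, h2⟩, Or.inr (Or.inl hv)⟩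
        rwa [hai m hfm] at this
      · left
        have := c.hmax v
        exact c.hg.uniq x i v z hv hCi.1 (by omega) (by omega)
    have hexA : ∀ v ∈ A1, ∃ w, G.Adj t0 w ∧ G.Adj v w := by
      intro v hv
      obtain ⟨hiv, hnv⟩ := (hA1 v).1 hv
      rcases hNi v hiv with rfl | hfv
      · exact ⟨i0, ht0.1, hi0.1.symm⟩
      · obtain ⟨w, hw1, hw2⟩ := c.mem_S_sees (hai v hfv) hi00 hne.symm (fun h => hna h.symm)
        -- w in F_{i0} adjacent to v ; path v - w - i0 - t0 and v - i - m - t0
        have hd := c.hg.p3 htm hmi hiv ht0.1 hw2.1.symm hw1.symm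
          (Or.inl (c.ne_FC hi0 hfm))
        rcases c.hg.le_two hd with e | e | ⟨y, h1, h2⟩
        · exfalso
          subst e
          exact hti hfv.1
        · exact ⟨m, htm, (hnv (Or.inl (c.U hi0 hCi ht0 hne htm hfm e hfv))).elim⟩
        · exact ⟨y, h1, h2⟩
    have hcard : A1.card = A2.card := by
      apply Finset.card_bij (fun v hv => (hexA v hv).choose)
      · intro v hv
        obtain ⟨h1, h2⟩ := (hexA v hv).choose_spec
        obtain ⟨hiv, hnv⟩ := (hA1 v).1 hv
        rw [hA2]
        refine ⟨h1, ?_⟩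
        rintro (e | e)
        · rw [← e] at h2
          exact hnv (Or.inr h2.symm)
        · -- m and v have common neighbours i and w
          push Not at hnv
          have := c.hg.cn hnv.1 hnv.2 hmi hiv.symm e h2
          rw [← this] at h1
          exact hti h1
      · intro v hv v' hv' e
        obtain ⟨h1, h2⟩ := (hexA v hv).choose_spec
        obtain ⟨h1', h2'⟩ := (hexA v' hv').choose_spec
        rw [← e] at h2'
        obtain ⟨hiv, hnv⟩ := (hA1 v).1 hv
        obtain ⟨hiv', hnv'⟩ := (hA1 v').1 hv'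
        have hniw : ¬ G.Adj i (hexA v hv).choose := by
          intro hh
          rcases hNi _ hh with e | e
          · have hz := c.hz
            have q := c.hg.adj_le (r := x) h1
            have ht2 := ht0.2
            rw [e] at q
            omega
          · have q := c.U hi0 hCi ht0 hne htm hfm h1 e
            rw [← q] at h2
            exact hnv (Or.inr h2.symm)
        have hiw : i ≠ (hexA v hv).choose := by
          intro hh
          rw [← hh] at h1
          exact hti h1
        exact c.hg.cn hiw hniw hiv h2.symm hiv' h2'.symm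
      · intro w hw
        obtain ⟨htw, hnw⟩ := (hA2 w).1 hw
        have hex : ∃ v, G.Adj i v ∧ G.Adj w v := by
          rcases c.nb hi0 ht0 htw with e | e
          · rw [e]; exact ⟨z, hCi.1, hi0.1⟩
          · obtain ⟨l, hl, hfl⟩ := c.cous hi0 ht0 htw e
            have hli : l ≠ i := by
              rintro rfl
              exact hnw (Or.inl (c.U hi0 hCi ht0 hne htm hfm htw hfl))
            have hShl : Sh G D x z l w = Sh G D x z i0 t0 := c.S3 hl hi0 hfl ht0 htw.symm
            have hnli : ¬ G.Adj l i := by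
              intro hh
              refine hno l ?_ i hiS hh
              rw [← hShl]
              unfold Sh
              simp only [mem_filter, mem_univ, true_and]
              exact ⟨hl, Or.inl trivial⟩
            obtain ⟨v, hv1, hv2⟩ := c.mem_S_sees hShl hiS hli hnli
            exact ⟨v, hv2.1.symm, hv1⟩
        obtain ⟨v, hiv, hwv⟩ := hex
        have hvA : v ∈ A1 := by
          rw [hA1]
          refine ⟨hiv, ?_⟩
          rintro (e | e)
          · rw [← e] at hwv
            exact hnw (Or.inr hwv.symm)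
          · push Not at hnw
            have q := c.hg.cn hnw.1 hnw.2 htm.symm htw.symm e hwv
            rw [← q] at hiv
            exact hti hiv.symm
        refine ⟨v, hvA, ?_⟩
        obtain ⟨h1, h2⟩ := (hexA v hvA).choose_spec
        -- common neighbour of t0 and v unique
        have htv : t0 ≠ v := by
          rintro rfl
          exact hti hiv.symm
        have hntv : ¬ G.Adj t0 v := by
          intro hh
          obtain ⟨_, hnv⟩ := (hA1 v).1 hvA
          rcases hNi v hiv with e | e
          · have hz := c.hz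
            have q := c.hg.adj_le (r := x) hh
            have ht2 := ht0.2
            rw [e] at q
            omega
          · exact hnv (Or.inl (c.U hi0 hCi ht0 hne htm hfm hh e))
        exact c.hg.cn htv hntv h1 h2 htw hwv.symm
    -- counting
    have s1 : (univ.filter (fun v => G.Adj i v ∧ (m = v ∨ G.Adj m v))).card + A1.card = k := by
      rw [← c.hreg i, ← Finset.card_filter_add_card_filter_not
        (s := univ.filter (fun v => G.Adj i v)) (fun v => m = v ∨ G.Adj m v)]
      congr 1
      · rw [Finset.filter_filter]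
      · rw [Finset.filter_filter]
    have s2 : (univ.filter (fun v => G.Adj t0 v ∧ (m = v ∨ G.Adj m v))).card + A2.card = k := by
      rw [← c.hreg t0, ← Finset.card_filter_add_card_filter_not
        (s := univ.filter (fun v => G.Adj t0 v)) (fun v => m = v ∨ G.Adj m v)]
      congr 1
      · rw [Finset.filter_filter]
      · rw [Finset.filter_filter]
    have s3 : (univ.filter (fun v => G.Adj i v ∧ (m = v ∨ G.Adj m v))).card = a := by
      rw [← hVV i m hiS hfm]
      congr 1
      ext v
      unfold VV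
      simp only [mem_filter, mem_univ, true_and]
      constructor
      · rintro ⟨h1, h2⟩
        rcases hNi v h1 with e | e
        · exfalso
          rcases h2 with h2 | h2
          · rw [e] at h2
            rw [h2] at hfm
            have := hfm.2
            have := c.hz
            omega
          · have q := c.hg.adj_le (r := x) h2
            have := hfm.2
            have := c.hz
            rw [e] at q
            omega
        · exact ⟨e, h2⟩
      · rintro ⟨h1, h2⟩
        exact ⟨h1.1.symm, h2⟩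
    have s4 : ((N3 G D x i0 t0).filter (fun w => RR G m w)) =
        univ.filter (fun v => G.Adj t0 v ∧ (m = v ∨ G.Adj m v)) := by
      ext w
      unfold N3 RR
      simp only [mem_filter, mem_univ, true_and]
      constructor
      · rintro ⟨⟨h1, h2, h3⟩, h4⟩
        exact ⟨h1, h4⟩
      · rintro ⟨h1, h2⟩
        refine ⟨⟨h1, ?_, ?_⟩, h2⟩
        · rcases c.nb hi0 ht0 h1 with e | e
          · exfalso
            rw [e] at h2
            rcases h2 with h2 | h2
            · exact c.ne_FC hi0 hfm h2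
            · exact hmi0 h2
          · exact e
        · intro hw
          -- w in F_{i0}, adjacent to m and t0
          have hwD : G.dist x w = D := by
            rcases c.nb hi0 ht0 h1 with e | e
            · rw [e] at hw
              exact absurd hw (G.irrefl)
            · exact e
          rcases h2 with e | e
          · rw [← e] at hw
            exact hmi0 hw
          · have q := c.U hCi hi0 hfm hne.symm e ⟨hw, hwD⟩ htm.symm ht0
            rw [q] at h1
            exact G.irrefl h1
    rw [s4]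
    omega
  have d2 : a ∣ (N3 G D x i0 t0).card := by
    apply dvd_class a (RR G)
    · intro v _; exact Or.inl rfl
    · intro u _ v _ h
      rcases h with h | h
      · exact Or.inl h.symm
      · exact Or.inr h.symm
    · intro u hu v hv w hw h1 h2
      unfold N3 at hu hv hw
      simp only [mem_filter, mem_univ, true_and] at hu hv hw
      rcases h1 with rfl | h1
      · exact h2
      rcases h2 with rfl | h2
      · exact Or.inr h1
      by_cases e : u = w
      · exact Or.inl e
      · exact Or.inr (c.hg.tr hu.1 hv.1 hw.1 h1 h2 e)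
    · exact key
  rw [c.card_N3 hi0 ht0] at d2
  have h1 := c.C1 hi0 ht0
  have h3 := c.card_FS hi0 ht0
  have h2 := c.VVsize hi0 ht0 hi00 ht0
  have h4 := c.Ssize (i0 := i0) (t0 := t0)
  rw [← ha] at h1 h2
  have d3 : a ∣ k := by
    rw [← h1]
    exact Dvd.dvd.add (dvd_refl a) d2
  rw [hc1] at h2 h3
  rw [← h3] at d3
  have d4 : a ∣ 1 := (Nat.dvd_add_right d1).1 d3
  have := Nat.le_of_dvd one_pos d4
  omega

theorem Ctx.false (c : Ctx G k D x z) {i0 t0 : V} (hi0 : CC G D x z i0)
    (ht0 : FF G D x i0 t0) : False := by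
  by_cases h : ∃ i ∈ Sh G D x z i0 t0, ∃ j ∈ Sh G D x z i0 t0, G.Adj i j
  · obtain ⟨i, hi, j, hj, hij⟩ := h
    exact c.case5 hi0 ht0 hi hj hij
  · push Not at h
    exact c.case6 hi0 ht0 h

/-- regular geodetic graphs without long isometric cycles have diameter at most two -/
theorem dist_le_two (hg : Geo G) (hno : NoLong G) {k : ℕ}
    (hreg : ∀ v, (univ.filter (fun w => G.Adj v w)).card = k) (u v : V) :
    G.dist u v ≤ 2 := by
  -- eccentricity of u
  obtain ⟨t, _, ht⟩ := Finset.exists_max_image (univ : Finset V) (fun w => G.dist u w)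
    ⟨u, mem_univ u⟩
  by_contra hcon
  push Not at hcon
  have hv := ht v (mem_univ v)
  obtain ⟨D, hDdef⟩ : ∃ D, D = G.dist u t := ⟨_, rfl⟩
  have hD : 3 ≤ D := by omega
  have hut : u ≠ t := by
    rintro rfl
    rw [SimpleGraph.dist_self] at hDdef; omega
  obtain ⟨h1, h2⟩ := hg.par_spec hut
  have hui : u ≠ par G u t := by
    intro hh
    rw [← hh, SimpleGraph.dist_self] at h2; omega
  obtain ⟨h3, h4⟩ := hg.par_spec hui
  have c : Ctx G k D u (par G u (par G u t)) :=
    { hg := hg, hno := hno, hreg := hreg, hD := hD,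
      hmax := fun w => by rw [hDdef]; exact ht w (mem_univ w),
      hz := by omega }
  exact c.false (i0 := par G u t) (t0 := t) ⟨h3, by omega⟩ ⟨h1, by omega⟩

end Pool.Agent.Helper30.GEO
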