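import Pool.Agent.Helper30.GEO.Core

namespace Pool.Agent.Helper30.GEO

open Finset Classical

theorem dvd_class {V : Type*} (a : ℕ) (R : V → V → Prop) (s : Finset V) :
    (∀ v ∈ s, R v v) → (∀ u ∈ s, ∀ v ∈ s, R u v → R v u) →
    (∀ u ∈ s, ∀ v ∈ s, ∀ w ∈ s, R u v → R v w → R u w) →
    (∀ v ∈ s, (s.filter (fun w => R v w)).card = a) → a ∣ s.card := by
  induction s using Finset.strongInduction with
  | H s ih =>
    intro h1 h2 h3 h4
    rcases s.eq_empty_or_nonempty with rfl | ⟨v, hv⟩
    · simp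
    have hsub : s.filter (fun w => ¬ R v w) ⊂ s := by
      refine ⟨Finset.filter_subset _ _, fun h => ?_⟩
      have := h hv
      rw [Finset.mem_filter] at this
      exact this.2 (h1 v hv)
    have key := ih _ hsub (fun u hu => h1 u (Finset.mem_filter.1 hu).1)
      (fun u hu w hw => h2 u (Finset.mem_filter.1 hu).1 w (Finset.mem_filter.1 hw).1)
      (fun u hu w hw y hy => h3 u (Finset.mem_filter.1 hu).1 w (Finset.mem_filter.1 hw).1
        y (Finset.mem_filter.1 hy).1)
      (by
        intro u hu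
        rw [← h4 u (Finset.mem_filter.1 hu).1]
        congr 1
        ext w
        simp only [Finset.mem_filter]
        constructor
        · rintro ⟨⟨a1, a2⟩, a3⟩
          exact ⟨a1, a3⟩
        · rintro ⟨a1, a3⟩
          refine ⟨⟨a1, fun a2 => ?_⟩, a3⟩
          have hu' := Finset.mem_filter.1 hu
          exact hu'.2 (h3 v hv w a1 u hu'.1 a2 (h2 u hu'.1 w a1 a3)))
    have e := Finset.card_filter_add_card_filter_not (s := s) (fun w => R v w)
    rw [h4 v hv] at e
    rw [← e]
    exact (Nat.dvd_add_right (dvd_refl a)).2 key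

variable {V : Type*} [Fintype V]

/-- the standing assumptions -/
structure Ctx (G : SimpleGraph V) (k D : ℕ) (x z : V) : Prop where
  hg : Geo G
  hno : NoLong G
  hreg : ∀ v, (univ.filter (fun w => G.Adj v w)).card = k
  hD : 3 ≤ D
  hmax : ∀ v, G.dist x v ≤ D
  hz : G.dist x z + 2 = D

/-- children of `z` -/
def CC (G : SimpleGraph V) (D : ℕ) (x z j : V) : Prop := G.Adj j z ∧ G.dist x j + 1 = D

/-- last level children of `i` -/
def FF (G : SimpleGraph V) (D : ℕ) (x i t : V) : Prop := G.Adj t i ∧ G.dist x t = D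

def Sees (G : SimpleGraph V) (D : ℕ) (x t j : V) : Prop := ∃ w, G.Adj t w ∧ FF G D x j w

noncomputable def Sh (G : SimpleGraph V) (D : ℕ) (x z i t : V) : Finset V :=
  univ.filter (fun j => CC G D x z j ∧ (i = j ∨ G.Adj i j ∨ Sees G D x t j))

/-- the class of `i` -/
noncomputable def cl (G : SimpleGraph V) (D : ℕ) (x z i : V) : Finset V :=
  univ.filter (fun j => CC G D x z j ∧ (i = j ∨ G.Adj i j))

noncomputable def Seen (G : SimpleGraph V) (D : ℕ) (x z i t : V) : Finset V :=
  univ.filter (fun j => CC G D x z j ∧ i ≠ j ∧ ¬ G.Adj i j ∧ Sees G D x t j)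

/-- siblings of `t` adjacent or equal to `t` -/
noncomputable def VV (G : SimpleGraph V) (D : ℕ) (x i t : V) : Finset V :=
  univ.filter (fun w => FF G D x i w ∧ (t = w ∨ G.Adj t w))

noncomputable def FS (G : SimpleGraph V) (D : ℕ) (x i : V) : Finset V :=
  univ.filter (fun w => FF G D x i w)

noncomputable def N3 (G : SimpleGraph V) (D : ℕ) (x i t : V) : Finset V :=
  univ.filter (fun w => G.Adj t w ∧ G.dist x w = D ∧ ¬ G.Adj w i)

section

variable {G : SimpleGraph V} {k D : ℕ} {x z : V}

theorem Ctx.par_C (c : Ctx G k D x z) {j : V} (h : CC G D x z j) : par G x j = z :=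
  c.hg.par_eq h.1 (by have := c.hz; have := h.2; omega)

theorem Ctx.par_F (c : Ctx G k D x z) {i t : V} (hi : CC G D x z i) (h : FF G D x i t) :
    par G x t = i :=
  c.hg.par_eq h.1 (by have := h.2; have := hi.2; omega)

/-- a neighbour of a last level vertex is its parent or in the last level -/
theorem Ctx.nb (c : Ctx G k D x z) {i t w : V} (hi : CC G D x z i) (h : FF G D x i t)
    (ha : G.Adj t w) : w = i ∨ G.dist x w = D := by
  by_cases hw : G.dist x w = D
  · exact Or.inr hw
  left
  have h1 := c.hmax w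
  have h2 := c.hg.adj_le (r := x) ha
  have h3 := h.2
  have h4 := hi.2
  exact c.hg.uniq x t w i ha h.1 (by omega) (by omega)

theorem Ctx.cous (c : Ctx G k D x z) {i t w : V} (hi : CC G D x z i) (h : FF G D x i t)
    (ha : G.Adj t w) (hw : G.dist x w = D) : ∃ j, CC G D x z j ∧ FF G D x j w := by
  have hD := c.hD
  have e := c.hg.g5 c.hno (r := x) ha (by rw [h.2, hw]) (by rw [h.2]; omega)
  rw [c.par_F hi h, c.par_C hi] at e
  have hxw : x ≠ w := by
    rintro rfl
    rw [SimpleGraph.dist_self] at hw; omega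
  have hp := c.hg.par_spec hxw
  have hxp : x ≠ par G x w := by
    intro hh
    rw [← hh, SimpleGraph.dist_self] at hp; omega
  have hp2 := c.hg.par_spec hxp
  rw [← e] at hp2
  exact ⟨par G x w, ⟨hp2.1, by omega⟩, ⟨hp.1, hw⟩⟩

theorem Ctx.nadj (c : Ctx G k D x z) {i j t : V} (hi : CC G D x z i) (hj : CC G D x z j)
    (h : FF G D x i t) (hne : i ≠ j) : ¬ G.Adj t j := by
  intro ha
  have h1 := hi.2
  have h2 := hj.2
  have h3 := h.2
  exact hne (c.hg.uniq x t i j h.1 ha (by omega) (by omega))

theorem ne_lev {a b : V} (h : G.dist x a ≠ G.dist x b) : a ≠ b := fun e => h (by rw [e])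

theorem Ctx.ne_FC (_c : Ctx G k D x z) {i j t : V} (hj : CC G D x z j)
    (h : FF G D x i t) : t ≠ j := by
  apply ne_lev (G := G) (x := x)
  have := hj.2
  have := h.2
  omega

theorem Ctx.S0 (c : Ctx G k D x z) {i j t : V} (hi : CC G D x z i) (hj : CC G D x z j)
    (h : FF G D x i t) (hij : G.Adj i j) : ¬ Sees G D x t j := by
  rintro ⟨w, hw, hf⟩
  have h1 := c.hg.cn (c.ne_FC hj h) (c.nadj hi hj h hij.ne) hw hf.1.symm h.1 hij.symm
  exact c.ne_FC hi hf h1

/-- uniqueness of the neighbour through which `j` is seen -/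
theorem Ctx.U (c : Ctx G k D x z) {i j t w w' : V} (hi : CC G D x z i) (hj : CC G D x z j)
    (h : FF G D x i t) (hne : i ≠ j) (h1 : G.Adj t w) (h2 : FF G D x j w)
    (h3 : G.Adj t w') (h4 : FF G D x j w') : w = w' :=
  c.hg.cn (c.ne_FC hj h) (c.nadj hi hj h hne) h1 h2.1.symm h3 h4.1.symm

theorem Ctx.S1 (c : Ctx G k D x z) {i j l t : V} (hi : CC G D x z i) (hj : CC G D x z j)
    (hl : CC G D x z l) (h : FF G D x i t) (_hne : i ≠ j) (hs : Sees G D x t j)
    (ha : G.Adj l j) : i ≠ l ∧ Sees G D x t l := by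
  have hil : i ≠ l := by
    rintro rfl
    exact c.S0 hi hj h ha hs
  refine ⟨hil, ?_⟩
  obtain ⟨w, hw, hf⟩ := hs
  have h2 := c.hg.p3 h.1 hi.1 hl.1.symm hw hf.1 ha.symm (Or.inl (c.ne_FC hi hf).symm)
  rcases c.hg.le_two h2 with e | e | ⟨y, hy1, hy2⟩
  · exact absurd e (c.ne_FC hl h)
  · exact absurd e (c.nadj hi hl h hil)
  · rcases c.nb hi h hy1 with rfl | hy
    · exfalso
      have hij : G.Adj y j ∨ y = j := by
        by_cases hh : y = j
        · exact Or.inr hh
        · exact Or.inl (c.hg.tr hi.1.symm hl.1.symm hj.1.symm hy2.symm ha hh)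
      rcases hij with hh | hh
      · exact c.S0 hi hj h hh ⟨w, hw, hf⟩
      · exact _hne hh
    · exact ⟨y, hy1, hy2.symm, hy⟩

theorem Ctx.S2 (c : Ctx G k D x z) {i i' j t t' : V} (hi : CC G D x z i)
    (hj : CC G D x z j) (h : FF G D x i t) (h' : FF G D x i' t')
    (ha : G.Adj t t') (hs : Sees G D x t' j) (hij : i ≠ j) (hnij : ¬ G.Adj i j) :
    Sees G D x t j := by
  obtain ⟨w, hw, hf⟩ := hs
  have h2 := c.hg.p3 ha hw hf.1 h.1 hi.1 hj.1.symm (Or.inl (c.ne_FC hi h'))
  rcases c.hg.le_two h2 with e | e | ⟨y, hy1, hy2⟩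
  · exact absurd e (c.ne_FC hj h)
  · exact absurd e (c.nadj hi hj h hij)
  · rcases c.nb hi h hy1 with rfl | hy
    · exact absurd hy2.symm hnij
    · exact ⟨y, hy1, hy2.symm, hy⟩

theorem Ctx.S3a (c : Ctx G k D x z) {i i' t t' : V} (hi : CC G D x z i)
    (hi' : CC G D x z i') (h : FF G D x i t) (h' : FF G D x i' t') (ha : G.Adj t t') :
    Sh G D x z i' t' ⊆ Sh G D x z i t := by
  intro j hj
  unfold Sh at hj ⊢
  simp only [mem_filter, mem_univ, true_and] at hj ⊢
  obtain ⟨hj, h3⟩ := hj
  refine ⟨hj, ?_⟩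
  have case1 : i' = j → i = j ∨ G.Adj i j ∨ Sees G D x t j := by
    rintro rfl
    exact Or.inr (Or.inr ⟨t', ha, h'⟩)
  rcases h3 with h3 | h3 | h3
  · exact case1 h3
  · by_cases e : i = i'
    · subst e; exact Or.inr (Or.inl h3)
    · exact Or.inr (Or.inr (c.S1 hi hi' hj h e ⟨t', ha, h'⟩ h3.symm).2)
  · by_cases e1 : i = j
    · exact Or.inl e1
    by_cases e2 : G.Adj i j
    · exact Or.inr (Or.inl e2)
    exact Or.inr (Or.inr (c.S2 hi hj h h' ha h3 e1 e2))

theorem Ctx.S3 (c : Ctx G k D x z) {i i' t t' : V} (hi : CC G D x z i)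
    (hi' : CC G D x z i') (h : FF G D x i t) (h' : FF G D x i' t') (ha : G.Adj t t') :
    Sh G D x z i t = Sh G D x z i' t' :=
  Subset.antisymm (c.S3a hi' hi h' h ha.symm) (c.S3a hi hi' h h' ha)

theorem Ctx.card_N3 (c : Ctx G k D x z) {i t : V} (hi : CC G D x z i) (h : FF G D x i t) :
    (N3 G D x i t).card = (Seen G D x z i t).card := by
  have key : ∀ w ∈ N3 G D x i t, CC G D x z (par G x w) ∧ FF G D x (par G x w) w ∧
      i ≠ par G x w := by
    intro w hw
    unfold N3 at hw
    simp only [mem_filter, mem_univ, true_and] at hw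
    obtain ⟨j, hj, hf⟩ := c.cous hi h hw.1 hw.2.1
    rw [c.par_F hj hf]
    refine ⟨hj, hf, ?_⟩
    rintro rfl
    exact hw.2.2 hf.1
  apply Finset.card_bij (fun w _ => par G x w)
  · intro w hw
    obtain ⟨h1, h2, h3⟩ := key w hw
    unfold N3 at hw
    simp only [mem_filter, mem_univ, true_and] at hw
    unfold Seen
    simp only [mem_filter, mem_univ, true_and]
    exact ⟨h1, h3, fun ha => c.S0 hi h1 h ha ⟨w, hw.1, h2⟩, ⟨w, hw.1, h2⟩⟩
  · intro w hw w' hw' e
    obtain ⟨h1, h2, h3⟩ := key w hw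
    obtain ⟨h1', h2', h3'⟩ := key w' hw'
    unfold N3 at hw hw'
    simp only [mem_filter, mem_univ, true_and] at hw hw'
    have e : par G x w = par G x w' := e
    rw [← e] at h2'
    exact c.U hi h1 h h3 hw.1 h2 hw'.1 h2'
  · intro j hj
    unfold Seen at hj
    simp only [mem_filter, mem_univ, true_and] at hj
    obtain ⟨hj, hne, hna, ⟨w, hw, hf⟩⟩ := hj
    refine ⟨w, ?_, c.par_F hj hf⟩
    unfold N3
    simp only [mem_filter, mem_univ, true_and]
    refine ⟨hw, hf.2, fun ha => ?_⟩
    exact c.nadj hj hi hf hne.symm ha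

theorem Ctx.card_Sh (c : Ctx G k D x z) {i t : V} (hi : CC G D x z i) (h : FF G D x i t) :
    (Sh G D x z i t).card = (cl G D x z i).card + (Seen G D x z i t).card := by
  have hd : Disjoint (cl G D x z i) (Seen G D x z i t) := by
    rw [Finset.disjoint_left]
    intro j h1 h2
    unfold cl at h1
    unfold Seen at h2
    simp only [mem_filter, mem_univ, true_and] at h1 h2
    rcases h1.2 with e | e
    · exact h2.2.1 e
    · exact h2.2.2.1 e
  rw [← Finset.card_union_of_disjoint hd]
  congr 1
  ext j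
  unfold Sh cl Seen
  simp only [mem_filter, mem_univ, true_and, mem_union]
  constructor
  · rintro ⟨h1, h2⟩
    by_cases e1 : i = j
    · exact Or.inl ⟨h1, Or.inl e1⟩
    by_cases e2 : G.Adj i j
    · exact Or.inl ⟨h1, Or.inr e2⟩
    right
    rcases h2 with e | e | e
    · exact absurd e e1
    · exact absurd e e2
    · exact ⟨h1, e1, e2, e⟩
  · rintro (⟨h1, h2⟩ | ⟨h1, h2, h3, h4⟩)
    · exact ⟨h1, by tauto⟩
    · exact ⟨h1, by tauto⟩

theorem Ctx.C1 (c : Ctx G k D x z) {i t : V} (hi : CC G D x z i) (h : FF G D x i t) :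
    (VV G D x i t).card + (Seen G D x z i t).card = k := by
  rw [← c.card_N3 hi h, ← c.hreg t]
  have hd : Disjoint (VV G D x i t) (N3 G D x i t) := by
    rw [Finset.disjoint_left]
    intro w h1 h2
    unfold VV at h1
    unfold N3 at h2
    simp only [mem_filter, mem_univ, true_and] at h1 h2
    exact h2.2.2 h1.1.1
  rw [← Finset.card_union_of_disjoint hd]
  -- replace t by i
  have e : univ.filter (fun w => G.Adj t w) =
      insert i ((VV G D x i t ∪ N3 G D x i t).erase t) := by
    ext w
    unfold VV N3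
    simp only [mem_filter, mem_univ, true_and, mem_union, mem_insert, mem_erase]
    constructor
    · intro ha
      rcases c.nb hi h ha with e | e
      · exact Or.inl e
      · right
        refine ⟨ha.symm.ne, ?_⟩
        by_cases hw : G.Adj w i
        · exact Or.inl ⟨⟨hw, e⟩, Or.inr ha⟩
        · exact Or.inr ⟨ha, e, hw⟩
    · rintro (e | ⟨hne, (⟨h1, h2⟩ | ⟨h1, h2, h3⟩)⟩)
      · rw [e]; exact h.1
      · rcases h2 with e | e
        · exact absurd e.symm hne
        · exact e
      · exact h1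
  rw [e]
  have hi1 : i ∉ (VV G D x i t ∪ N3 G D x i t).erase t := by
    unfold VV N3
    simp only [mem_filter, mem_univ, true_and, mem_union, mem_erase]
    rintro ⟨hne, (⟨h1, h2⟩ | ⟨h1, h2, h3⟩)⟩
    · exact G.irrefl h1.1
    · have := hi.2; omega
  have ht1 : t ∈ VV G D x i t ∪ N3 G D x i t := by
    unfold VV
    simp only [mem_filter, mem_univ, true_and, mem_union]
    left
    exact ⟨h, Or.inl trivial⟩
  rw [Finset.card_insert_of_notMem hi1, Finset.card_erase_add_one ht1]

theorem Ctx.VV_sub (_c : Ctx G k D x z) {i t : V} : VV G D x i t ⊆ FS G D x i := by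
  intro w hw
  unfold VV at hw
  unfold FS
  simp only [mem_filter, mem_univ, true_and] at hw ⊢
  exact hw.1

theorem Ctx.FS_lt (c : Ctx G k D x z) {i : V} (hi : CC G D x z i) :
    (FS G D x i).card + 1 ≤ k := by
  rw [← c.hreg i]
  have hz : z ∉ FS G D x i := by
    unfold FS FF
    simp only [mem_filter, mem_univ, true_and, not_and]
    intro _
    have := c.hz
    omega
  rw [← Finset.card_insert_of_notMem hz]
  apply Finset.card_le_card
  intro w hw
  rw [mem_insert] at hw
  simp only [mem_filter, mem_univ, true_and]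
  rcases hw with rfl | hw
  · exact hi.1
  · unfold FS at hw
    simp only [mem_filter, mem_univ, true_and] at hw
    exact hw.1.symm

theorem Ctx.F2 (c : Ctx G k D x z) {i t : V} (hi : CC G D x z i) (h : FF G D x i t) :
    ∃ j t', CC G D x z j ∧ i ≠ j ∧ ¬ G.Adj i j ∧ G.Adj t t' ∧ FF G D x j t' := by
  have h1 := c.C1 hi h
  have h2 := Finset.card_le_card (c.VV_sub (i := i) (t := t))
  have h3 := c.FS_lt hi
  have h4 : (Seen G D x z i t).Nonempty := by
    rw [← Finset.card_pos]; omega
  obtain ⟨j, hj⟩ := h4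
  unfold Seen at hj
  simp only [mem_filter, mem_univ, true_and] at hj
  obtain ⟨a, b, d, ⟨t', e, f⟩⟩ := hj
  exact ⟨j, t', a, b, d, e, f⟩

/-- no exits -/
theorem Ctx.exits (c : Ctx G k D x z) {i t e : V} (hi : CC G D x z i) (h : FF G D x i t)
    (hie : G.Adj i e) (he : G.dist x e + 1 = D) : G.Adj e z := by
  have hD := c.hD
  have hz := c.hz
  have hi2 := hi.2
  have hxe : x ≠ e := by
    rintro rfl
    simp at he; omega
  obtain ⟨hw1, hw2⟩ := c.hg.par_spec hxe
  by_cases hwz : par G x e = z
  · rw [hwz] at hw1; exact hw1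
  exfalso
  have g5 := c.hg.g5 c.hno (r := x) hie (by omega) (by omega)
  rw [c.par_C hi] at g5
  obtain ⟨w, hw⟩ : ∃ w, w = par G x e := ⟨_, rfl⟩
  rw [← hw] at hw1 hw2 hwz g5
  have hxz : x ≠ z := by
    rintro rfl
    simp at hz; omega
  have hxw : x ≠ w := by
    rintro rfl
    simp at hw2; omega
  obtain ⟨hg1, hg2⟩ := c.hg.par_spec hxz
  obtain ⟨hg3, hg4⟩ := c.hg.par_spec hxw
  rw [← g5] at hg3 hg4
  obtain ⟨j, t', hj, hij, hnij, htt', hft'⟩ := c.F2 hi h
  have hj2 := hj.2
  have ht2 := h.2
  have ht'2 := hft'.2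
  -- nonadjacency facts
  have hjw : ¬ G.Adj j w := by
    intro ha
    exact hwz (c.hg.uniq x j w z ha hj.1 (by omega) (by omega))
  have hiw : ¬ G.Adj i w := by
    intro ha
    exact hwz (c.hg.uniq x i w z ha hi.1 (by omega) (by omega))
  have hi_ne_w : i ≠ w := ne_lev (G := G) (x := x) (by omega)
  have hez : e ≠ z := ne_lev (G := G) (x := x) (by omega)
  have hp4 := c.hg.p4 htt'.symm h.1 hie hw1 hft'.1 hj.1 hg1 hg3.symm
    (c.ne_FC hj h)
  -- find a path t' - a - b - w
  have hjbw : ∃ b, G.Adj j b ∧ G.Adj b w ∧ G.dist x b + 1 = D := by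
    have hne : w ≠ t' := ne_lev (G := G) (x := x) (by omega)
    have hna : ¬ G.Adj w t' := by
      intro ha
      have := c.hg.adj_le (r := x) ha.symm
      omega
    have h2le := c.hg.two_le hne hna
    rw [SimpleGraph.dist_comm] at hp4
    obtain ⟨a, ha1, ha2⟩ := c.hg.exists_par hne
    -- a adjacent to t', dist w a + 1 = dist w t'
    rcases c.nb hj hft' ha1 with haj | haD
    · subst haj
      rcases c.hg.le_two (u := w) (v := a) (by omega) with e1 | e1 | ⟨b, hb1, hb2⟩
      · exfalso
        subst e1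
        omega
      · exact absurd e1.symm hjw
      · -- level of b
        have l1 := c.hg.adj_le (r := x) hb1
        have l2 := c.hg.adj_le (r := x) hb1.symm
        have l3 := c.hg.adj_le (r := x) hb2
        have l4 := c.hg.adj_le (r := x) hb2.symm
        by_cases hb : G.dist x b + 1 = D
        · exact ⟨b, hb2, hb1.symm, hb⟩
        · exfalso
          have hbz : b = z := c.hg.uniq x a b z hb2 hj.1 (by omega) (by omega)
          subst hbz
          exact hez (c.hg.cn hi_ne_w hiw hie hw1.symm hi.1 hb1)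
    · exfalso
      obtain ⟨l, hl, hfl⟩ := c.cous hj hft' ha1 haD
      have hl2 := hl.2
      rcases c.hg.le_two (u := w) (v := a) (by omega) with e1 | e1 | ⟨b, hb1, hb2⟩
      · subst e1; omega
      · have := c.hg.adj_le (r := x) e1.symm; omega
      · rcases c.nb hl hfl hb2 with hbl | hbD
        · subst hbl
          exact hwz (c.hg.uniq x b w z hb1.symm hl.1 (by omega) (by omega))
        · have := c.hg.adj_le (r := x) hb1.symm
          omega
  obtain ⟨b, hjb, hbw, hb⟩ := hjbw
  have hej : e ≠ j := by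
    rintro rfl
    exact hjw hw1
  have hnej : ¬ G.Adj e j := by
    intro ha
    have := c.hg.cn hij hnij hi.1 hj.1 hie ha.symm
    exact hez this.symm
  have h2 := c.hg.p3 hie.symm hi.1 hj.1.symm hw1 hbw.symm hjb.symm (Or.inl hi_ne_w)
  rcases c.hg.le_two h2 with e1 | e1 | ⟨y, hy1, hy2⟩
  · exact hej e1
  · exact hnej e1
  have h3 := c.hg.p3 h.1 hie hy1 htt' hft'.1 hy2 (Or.inl (c.ne_FC hi hft').symm)
  -- level of y
  have l1 := c.hg.adj_le (r := x) hy1
  have l2 := c.hg.adj_le (r := x) hy1.symm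
  have hyD : G.dist x y ≠ D := by
    intro hh
    exact hej (c.hg.uniq x y e j hy1.symm hy2.symm (by omega) (by omega))
  have hyD2 : G.dist x y + 2 ≠ D := by
    intro hh
    have q1 := c.hg.uniq x e y w hy1 hw1 (by omega) (by omega)
    have q2 := c.hg.uniq x j y z hy2 hj.1 (by omega) (by omega)
    exact hwz (q1.symm.trans q2)
  have hyD1 : G.dist x y + 1 = D := by
    have := c.hmax y
    omega
  have hyz : y ≠ z := ne_lev (G := G) (x := x) (by omega)
  have hniy : ¬ G.Adj i y := by
    intro ha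
    exact hyz (c.hg.cn hij hnij ha hy2 hi.1 hj.1)
  have hiy : i ≠ y := by
    rintro rfl
    exact hnij hy2.symm
  rcases c.hg.le_two h3 with e1 | e1 | ⟨v, hv1, hv2⟩
  · rw [← e1] at hyD; exact hyD ht2
  · rcases c.nb hi h e1 with e2 | e2
    · exact hiy e2.symm
    · exact hyD e2
  · rcases c.nb hi h hv1 with e2 | e2
    · rw [e2] at hv2
      exact hniy hv2.symm
    · obtain ⟨l, hl, hfl⟩ := c.cous hi h hv1 e2
      have hl2 := hl.2
      have hly : l = y := c.hg.uniq x v l y hfl.1 hv2.symm (by omega) (by omega)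
      subst hly
      exact hez (c.hg.cn hiy hniy hie hy1.symm hi.1 hl.1)

/-- size of the last level children -/
theorem Ctx.card_FS (c : Ctx G k D x z) {i t : V} (hi : CC G D x z i) (h : FF G D x i t) :
    (FS G D x i).card + (cl G D x z i).card = k := by
  have hd : Disjoint (FS G D x i) (cl G D x z i) := by
    rw [Finset.disjoint_left]
    intro w h1 h2
    unfold FS at h1
    unfold cl at h2
    simp only [mem_filter, mem_univ, true_and] at h1 h2
    have := h1.2
    have := h2.1.2
    omega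
  rw [← Finset.card_union_of_disjoint hd, ← c.hreg i]
  have e : univ.filter (fun w => G.Adj i w) =
      insert z ((FS G D x i ∪ cl G D x z i).erase i) := by
    ext w
    unfold FS cl
    simp only [mem_filter, mem_univ, true_and, mem_union, mem_insert, mem_erase]
    constructor
    · intro ha
      have l1 := c.hg.adj_le (r := x) ha
      have l2 := c.hg.adj_le (r := x) ha.symm
      have hi2 := hi.2
      have hz := c.hz
      by_cases h1 : G.dist x w = D
      · exact Or.inr ⟨ha.symm.ne, Or.inl ⟨ha.symm, h1⟩⟩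
      by_cases h2 : G.dist x w + 1 = D
      · exact Or.inr ⟨ha.symm.ne, Or.inr ⟨⟨c.exits hi h ha h2, h2⟩, Or.inr ha⟩⟩
      · left
        have := c.hmax w
        exact c.hg.uniq x i w z ha hi.1 (by omega) (by omega)
    · rintro (e | ⟨hne, (⟨h1, h2⟩ | ⟨h1, h2⟩)⟩)
      · rw [e]; exact hi.1
      · exact h1.symm
      · rcases h2 with e | e
        · exact absurd e.symm hne
        · exact e
  rw [e]
  have hz1 : z ∉ (FS G D x i ∪ cl G D x z i).erase i := by
    unfold FS cl FF CC
    have hz := c.hz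
    simp only [mem_filter, mem_univ, true_and, mem_union, mem_erase]
    rintro ⟨hne, (⟨h1, h2⟩ | ⟨⟨h1, h2⟩, h3⟩)⟩
    · omega
    · omega
  have hi1 : i ∈ FS G D x i ∪ cl G D x z i := by
    unfold cl
    simp only [mem_filter, mem_univ, true_and, mem_union]
    right
    exact ⟨hi, Or.inl trivial⟩
  rw [Finset.card_insert_of_notMem hz1, Finset.card_erase_add_one hi1]

/-- all children of `z` -/
theorem Ctx.card_CC (c : Ctx G k D x z) :
    (univ.filter (fun j => CC G D x z j)).card + 1 ≤ k := by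
  have hz := c.hz
  have hD := c.hD
  have hxz : x ≠ z := by
    rintro rfl
    simp at hz; omega
  obtain ⟨hg1, hg2⟩ := c.hg.par_spec hxz
  have hn : par G x z ∉ univ.filter (fun j => CC G D x z j) := by
    simp only [mem_filter, mem_univ, true_and]
    intro hh
    have := hh.2
    omega
  rw [← Finset.card_insert_of_notMem hn, ← c.hreg z]
  apply Finset.card_le_card
  intro w hw
  rw [mem_insert] at hw
  simp only [mem_filter, mem_univ, true_and] at hw ⊢
  rcases hw with rfl | hw
  · exact hg1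
  · exact hw.1.symm

theorem Ctx.KK (c : Ctx G k D x z) {i t u : V} (hi : CC G D x z i) (ht : FF G D x i t)
    (hu : FF G D x i u) : Sh G D x z i t = Sh G D x z i u := by
  by_cases htu : t = u
  · rw [htu]
  by_cases hatu : G.Adj t u
  · exact c.S3 hi hi ht hu hatu
  by_cases hcom : ∃ j, CC G D x z j ∧ i ≠ j ∧ Sees G D x t j ∧ Sees G D x u j
  · obtain ⟨j, hj, hij, ⟨t', h1, h2⟩, ⟨u', h3, h4⟩⟩ := hcom
    by_cases e : t' = u'
    · exfalso
      subst e
      exact c.ne_FC hi h2 (c.hg.cn htu hatu h1 h3 ht.1 hu.1)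
    have hd := c.hg.p3 h1 h2.1 h4.1.symm ht.1 hu.1.symm h3 (Or.inl (c.ne_FC hi h2))
    have e2 := c.S3 hi hj hu h4 h3
    rcases c.hg.le_two hd with e1 | e1 | ⟨y, hy1, hy2⟩
    · exfalso
      subst e1
      exact c.nadj hi hj ht hij h4.1
    · rw [e2]
      exact c.S3 hi hj ht h4 e1
    · rcases c.nb hi ht hy1 with e3 | e3
      · exfalso
        rw [e3] at hy2
        exact c.nadj hj hi h4 hij.symm hy2
      · obtain ⟨l, hl, hfl⟩ := c.cous hi ht hy1 e3
        rw [e2, c.S3 hi hl ht hfl hy1]
        exact c.S3 hl hj hfl h4 hy2.symm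
  · exfalso
    push Not at hcom
    have a1 := c.C1 hi ht
    have a2 := c.C1 hi hu
    have a3 := c.card_FS hi ht
    have a4 := c.card_CC
    have d1 : Disjoint (VV G D x i t) (VV G D x i u) := by
      rw [Finset.disjoint_left]
      intro w h1 h2
      unfold VV at h1 h2
      simp only [mem_filter, mem_univ, true_and] at h1 h2
      obtain ⟨hf, h1⟩ := h1
      obtain ⟨_, h2⟩ := h2
      rcases h1 with rfl | h1
      · rcases h2 with rfl | h2
        · exact htu rfl
        · exact hatu h2.symm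
      · rcases h2 with rfl | h2
        · exact hatu h1
        · exact hatu (c.hg.tr ht.1.symm hf.1.symm hu.1.symm h1 h2.symm htu)
    have b1 : (VV G D x i t).card + (VV G D x i u).card ≤ (FS G D x i).card := by
      rw [← Finset.card_union_of_disjoint d1]
      exact Finset.card_le_card (Finset.union_subset c.VV_sub c.VV_sub)
    have d2 : Disjoint (Seen G D x z i t) (Seen G D x z i u) := by
      rw [Finset.disjoint_left]
      intro j h1 h2
      unfold Seen at h1 h2
      simp only [mem_filter, mem_univ, true_and] at h1 h2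
      exact hcom j h1.1 h1.2.1 h1.2.2.2 h2.2.2.2
    have d3 : Disjoint (Seen G D x z i t ∪ Seen G D x z i u) (cl G D x z i) := by
      rw [Finset.disjoint_left]
      intro j h1 h2
      unfold Seen at h1
      unfold cl at h2
      simp only [mem_filter, mem_univ, true_and, mem_union] at h1 h2
      rcases h2.2 with e | e
      · rcases h1 with h1 | h1
        · exact h1.2.1 e
        · exact h1.2.1 e
      · rcases h1 with h1 | h1
        · exact h1.2.2.1 e
        · exact h1.2.2.1 e
    have b2 : (Seen G D x z i t).card + (Seen G D x z i u).card + (cl G D x z i).card ≤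
        (univ.filter (fun j => CC G D x z j)).card := by
      rw [← Finset.card_union_of_disjoint d2, ← Finset.card_union_of_disjoint d3]
      apply Finset.card_le_card
      intro j hj
      unfold Seen cl at hj
      simp only [mem_filter, mem_univ, true_and, mem_union] at hj ⊢
      rcases hj with (hj | hj) | hj
      · exact hj.1
      · exact hj.1
      · exact hj.1
    omega

end

end Pool.Agent.Helper30.GEO
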